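import Pool.Agent.R932.PO.All
import Pool.Agent.R932.MtOdd

/-!
# Blocks of a coloured matrix
-/

set_option autoImplicit false
set_option linter.unusedSectionVars false

open Matrix Filter Topology
open Pool.Agent.W544.PG (BD bl)

namespace Pool.Agent.R932.H2

noncomputable section

variable {n r : ℕ} {c : Fin n → Fin r}

/-- the size of a block -/
def nb (c : Fin n → Fin r) (i : Fin r) : ℕ := Fintype.card {a : Fin n // c a = i}

/-- enumeration of a block -/
def eb (c : Fin n → Fin r) (i : Fin r) : {a : Fin n // c a = i} ≃ Fin (nb c i) :=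
  Fintype.equivFin _

/-- the elements of a block -/
def ix (c : Fin n → Fin r) (i : Fin r) (x : Fin (nb c i)) : Fin n := ((eb c i).symm x).1

theorem c_ix (i : Fin r) (x : Fin (nb c i)) : c (ix c i x) = i := ((eb c i).symm x).2

theorem ix_eb {i : Fin r} {a : Fin n} (h : c a = i) : ix c i (eb c i ⟨a, h⟩) = a := by
  unfold ix
  rw [Equiv.symm_apply_apply]

theorem eb_ix {i : Fin r} (x : Fin (nb c i)) (h : c (ix c i x) = i) :
    eb c i ⟨ix c i x, h⟩ = x := by
  have h1 : (⟨ix c i x, h⟩ : {a : Fin n // c a = i}) = (eb c i).symm x := rfl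
  rw [h1, Equiv.apply_symm_apply]

theorem ix_inj (i : Fin r) : Function.Injective (ix c i) := fun x y h => by
  have h1 : (eb c i).symm x = (eb c i).symm y := Subtype.ext h
  exact (eb c i).symm.injective h1

/-- the block of colour `i` -/
def pk {R : Type} (c : Fin n → Fin r) (i : Fin r) (A : Matrix (Fin n) (Fin n) R) :
    Matrix (Fin (nb c i)) (Fin (nb c i)) R :=
  A.submatrix (ix c i) (ix c i)

/-- the matrix with given blocks -/
def gl {R : Type} [Zero R] (c : Fin n → Fin r)
    (X : ∀ i, Matrix (Fin (nb c i)) (Fin (nb c i)) R) : Matrix (Fin n) (Fin n) R :=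
  Matrix.of fun a b => if h : c b = c a then X (c a) (eb c (c a) ⟨a, rfl⟩) (eb c (c a) ⟨b, h⟩) else 0

theorem gl_apply_ix {R : Type} [Zero R] (X : ∀ i, Matrix (Fin (nb c i)) (Fin (nb c i)) R)
    (i : Fin r) (x y : Fin (nb c i)) : gl c X (ix c i x) (ix c i y) = X i x y := by
  have key : ∀ (a b : Fin n) (ha : c a = i) (hb : c b = i),
      gl c X a b = X i (eb c i ⟨a, ha⟩) (eb c i ⟨b, hb⟩) := by
    intro a b ha hb
    subst ha
    unfold gl
    rw [Matrix.of_apply, dif_pos hb]
  rw [key _ _ (c_ix i x) (c_ix i y), eb_ix, eb_ix]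

theorem pk_gl {R : Type} [Zero R] (X : ∀ i, Matrix (Fin (nb c i)) (Fin (nb c i)) R) (i : Fin r) :
    pk c i (gl c X) = X i := by
  ext x y
  exact gl_apply_ix X i x y

theorem bd_gl {R : Type} [Zero R] (X : ∀ i, Matrix (Fin (nb c i)) (Fin (nb c i)) R) :
    BD c (gl c X) := by
  intro a b hab
  unfold gl
  rw [Matrix.of_apply, dif_neg (Ne.symm hab)]

/-- block diagonal matrices are determined by their blocks -/
theorem bd_ext {R : Type} [Zero R] {A B : Matrix (Fin n) (Fin n) R} (hA : BD c A) (hB : BD c B)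
    (h : ∀ i, pk c i A = pk c i B) : A = B := by
  ext a b
  by_cases hab : c a = c b
  · have h1 := congrFun (congrFun (h (c a)) (eb c (c a) ⟨a, rfl⟩)) (eb c (c a) ⟨b, hab.symm⟩)
    unfold pk at h1
    rw [Matrix.submatrix_apply, Matrix.submatrix_apply, ix_eb, ix_eb] at h1
    exact h1
  · rw [hA a b hab, hB a b hab]

theorem gl_pk {R : Type} [Zero R] {A : Matrix (Fin n) (Fin n) R} (hA : BD c A) :
    gl c (fun i => pk c i A) = A :=
  bd_ext (bd_gl _) hA fun i => pk_gl _ i

/-- sums over a block -/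
theorem sum_blk {R : Type} [AddCommMonoid R] (i : Fin r) (f : Fin n → R)
    (hf : ∀ a, c a ≠ i → f a = 0) : ∑ a, f a = ∑ x, f (ix c i x) := by
  classical
  have h1 : ∑ x, f (ix c i x) = ∑ a : {a : Fin n // c a = i}, f a.1 :=
    (Equiv.sum_comp (eb c i).symm fun a : {a : Fin n // c a = i} => f a.1)
  rw [h1, ← Finset.sum_subtype (Finset.univ.filter fun a => c a = i) (fun a => by simp) f]
  symm
  refine Finset.sum_subset (Finset.filter_subset _ _) fun a _ ha => hf a fun h => ha ?_
  exact Finset.mem_filter.2 ⟨Finset.mem_univ a, h⟩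

theorem bd_mul {R : Type} [NonUnitalNonAssocSemiring R] {A B : Matrix (Fin n) (Fin n) R}
    (hA : BD c A) (hB : BD c B) : BD c (A * B) := by
  intro a b hab
  rw [Matrix.mul_apply]
  refine Finset.sum_eq_zero fun x _ => ?_
  by_cases hx : c a = c x
  · rw [hB x b (fun h => hab (hx.trans h)), mul_zero]
  · rw [hA a x hx, zero_mul]

theorem bd_one {R : Type} [Zero R] [One R] : BD c (1 : Matrix (Fin n) (Fin n) R) := by
  intro a b hab
  rw [Matrix.one_apply_ne]
  rintro rfl
  exact hab rfl

theorem bd_trans {R : Type} [Zero R] {A : Matrix (Fin n) (Fin n) R} (hA : BD c A) : BD c Aᵀ :=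
  fun a b hab => hA b a (Ne.symm hab)

theorem bd_map {R S : Type} [Zero R] [Zero S] {A : Matrix (Fin n) (Fin n) R} (hA : BD c A)
    {f : R → S} (hf : f 0 = 0) : BD c (A.map f) := fun a b hab => by
  rw [Matrix.map_apply, hA a b hab, hf]

theorem pk_mul {R : Type} [NonUnitalNonAssocSemiring R] {A B : Matrix (Fin n) (Fin n) R}
    (hA : BD c A) (i : Fin r) : pk c i (A * B) = pk c i A * pk c i B := by
  ext x y
  unfold pk
  rw [Matrix.submatrix_apply, Matrix.mul_apply, Matrix.mul_apply]
  refine (sum_blk i _ fun a ha => ?_).trans rfl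
  rw [hA (ix c i x) a (fun h => ha (h.symm.trans (c_ix i x))), zero_mul]

theorem pk_one {R : Type} [Zero R] [One R] (i : Fin r) :
    pk c i (1 : Matrix (Fin n) (Fin n) R) = 1 := by
  unfold pk
  exact Matrix.submatrix_one _ (ix_inj i)

theorem pk_add {R : Type} [Add R] (A B : Matrix (Fin n) (Fin n) R) (i : Fin r) :
    pk c i (A + B) = pk c i A + pk c i B := rfl

theorem pk_sub {R : Type} [Sub R] (A B : Matrix (Fin n) (Fin n) R) (i : Fin r) :
    pk c i (A - B) = pk c i A - pk c i B := rfl

theorem pk_smul {R S : Type} [SMul S R] (z : S) (A : Matrix (Fin n) (Fin n) R) (i : Fin r) :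
    pk c i (z • A) = z • pk c i A := rfl

theorem pk_zero {R : Type} [Zero R] (i : Fin r) : pk c i (0 : Matrix (Fin n) (Fin n) R) = 0 := rfl

theorem pk_trans {R : Type} (A : Matrix (Fin n) (Fin n) R) (i : Fin r) :
    pk c i Aᵀ = (pk c i A)ᵀ := rfl

theorem pk_map {R S : Type} (A : Matrix (Fin n) (Fin n) R) (f : R → S) (i : Fin r) :
    pk c i (A.map f) = (pk c i A).map f := rfl

theorem gl_map {R S : Type} [Zero R] [Zero S] (X : ∀ i, Matrix (Fin (nb c i)) (Fin (nb c i)) R)
    {f : R → S} (hf : f 0 = 0) : (gl c X).map f = gl c fun i => (X i).map f :=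
  bd_ext (bd_map (bd_gl X) hf) (bd_gl _) fun i => by rw [pk_map, pk_gl, pk_gl]

theorem gl_mul {R : Type} [NonUnitalNonAssocSemiring R]
    (X Y : ∀ i, Matrix (Fin (nb c i)) (Fin (nb c i)) R) :
    gl c X * gl c Y = gl c fun i => X i * Y i :=
  bd_ext (bd_mul (bd_gl X) (bd_gl Y)) (bd_gl _) fun i => by
    rw [pk_mul (bd_gl X), pk_gl, pk_gl, pk_gl]

theorem gl_one {R : Type} [Zero R] [One R] :
    gl c (fun _ => (1 : Matrix (Fin (nb c _)) (Fin (nb c _)) R)) = 1 :=
  bd_ext (bd_gl _) bd_one fun i => by rw [pk_gl, pk_one]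

/-- the determinant of the completed block -/
theorem det_bl {R : Type} [CommRing R] {A : Matrix (Fin n) (Fin n) R} (i : Fin r) :
    (bl c i A).det = (pk c i A).det := by
  classical
  have h1 : (bl c i A).det = ((bl c i A).submatrix (Equiv.sumCompl (fun a => c a = i))
      (Equiv.sumCompl (fun a => c a = i))).det := (Matrix.det_submatrix_equiv_self _ _).symm
  have h2 : (bl c i A).submatrix (Equiv.sumCompl (fun a => c a = i))
      (Equiv.sumCompl (fun a => c a = i)) =
      fromBlocks (A.submatrix (fun a : {a : Fin n // c a = i} => a.1)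
        (fun a : {a : Fin n // c a = i} => a.1)) 0 0 1 := by
    ext a b
    rcases a with a | a <;> rcases b with b | b
    · simp [bl, a.2, b.2]
    · simp [bl, a.2, b.2]
      rintro h
      exact absurd (h ▸ a.2) b.2
    · simp [bl, a.2, b.2]
      rintro h
      exact absurd (h ▸ b.2) a.2
    · simp [bl, a.2, b.2, Matrix.one_apply, Subtype.ext_iff]
  rw [h1, h2, Matrix.det_fromBlocks_zero₂₁, Matrix.det_one, mul_one]
  have h3 : pk c i A = (A.submatrix (fun a : {a : Fin n // c a = i} => a.1)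
      (fun a : {a : Fin n // c a = i} => a.1)).submatrix (eb c i).symm (eb c i).symm := rfl
  rw [h3, Matrix.det_submatrix_equiv_self]

end

end Pool.Agent.R932.H2
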