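import Pool.Agent.R932.H2.Mt

/-!
# Semisimplicity and endomorphisms of blocks
-/

set_option autoImplicit false
set_option linter.unusedSectionVars false

open Matrix
open Pool.Agent.R932.EV (SS SC)
open Pool.Agent.W544.PG (BD)

namespace Pool.Agent.R932.H2

noncomputable section

variable {n r : ℕ} {c : Fin n → Fin r} {ℓ : ℕ} [hℓ : Fact ℓ.Prime] {G : Type} [Group G]

/-- the block of colour `i` -/
def blk {R : Type} (c : Fin n → Fin r) (i : Fin r) (A : Matrix (Fin n) (Fin n) R) :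
    Matrix {a : Fin n // c a = i} {a : Fin n // c a = i} R :=
  A.submatrix (fun a => a.1) (fun a => a.1)

theorem pk_blk {R : Type} (i : Fin r) (A : Matrix (Fin n) (Fin n) R) :
    pk c i A = (blk c i A).submatrix (eb c i).symm (eb c i).symm := rfl

theorem charpoly_pk (i : Fin r) (A : Matrix (Fin n) (Fin n) ℚ_[ℓ]) :
    (pk c i A).charpoly = (blk c i A).charpoly := by
  rw [pk_blk]
  exact Matrix.charpoly_reindex (eb c i) (blk c i A)

theorem pk_mulVec (i : Fin r) (A : Matrix (Fin n) (Fin n) ℚ_[ℓ]) (w : Fin (nb c i) → ℚ_[ℓ])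
    (a : {a : Fin n // c a = i}) :
    (pk c i A *ᵥ w) (eb c i a) = (blk c i A *ᵥ fun b => w (eb c i b)) a := by
  rw [pk_blk]
  unfold Matrix.mulVec dotProduct
  rw [← Equiv.sum_comp (eb c i)]
  refine Finset.sum_congr rfl fun b _ => ?_
  show blk c i A ((eb c i).symm (eb c i a)) ((eb c i).symm (eb c i b)) * _ = _
  rw [Equiv.symm_apply_apply, Equiv.symm_apply_apply]

theorem ss_blk {R : G →* Matrix (Fin n) (Fin n) ℚ_[ℓ]} (hbd : ∀ g, BD c (R g)) (i : Fin r)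
    (h : ∀ W : Submodule ℚ_[ℓ] ({a : Fin n // c a = i} → ℚ_[ℓ]),
      (∀ σ, ∀ w ∈ W, blk c i (R σ) *ᵥ w ∈ W) →
      ∃ W' : Submodule ℚ_[ℓ] ({a : Fin n // c a = i} → ℚ_[ℓ]), IsCompl W W' ∧
        ∀ σ, ∀ w ∈ W', blk c i (R σ) *ᵥ w ∈ W') : SS (rp c R hbd i) := by
  intro W hW
  let E : (Fin (nb c i) → ℚ_[ℓ]) ≃ₗ[ℚ_[ℓ]] ({a : Fin n // c a = i} → ℚ_[ℓ]) :=
    LinearEquiv.funCongrLeft ℚ_[ℓ] ℚ_[ℓ] (eb c i)
  have hE : ∀ w, E w = fun b => w (eb c i b) := fun w => rfl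
  have key : ∀ σ w, E (rp c R hbd i σ *ᵥ w) = blk c i (R σ) *ᵥ (E w) := by
    intro σ w
    funext a
    exact pk_mulVec i (R σ) w a
  obtain ⟨W', hc, hW'⟩ := h (W.map (E : _ →ₗ[ℚ_[ℓ]] _)) (by
    rintro σ _ ⟨w, hw, rfl⟩
    exact ⟨rp c R hbd i σ *ᵥ w, hW σ w hw, key σ w⟩)
  refine ⟨W'.comap (E : _ →ₗ[ℚ_[ℓ]] _), ?_, ?_⟩
  · have h1 := (Submodule.orderIsoMapComap E).symm.isCompl hc
    have h2 : (Submodule.orderIsoMapComap E).symm (W.map (E : _ →ₗ[ℚ_[ℓ]] _)) = W :=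
      (Submodule.orderIsoMapComap E).symm_apply_apply W
    rw [h2] at h1
    exact h1
  · intro σ w hw
    show E (rp c R hbd i σ *ᵥ w) ∈ W'
    rw [key]
    exact hW' σ _ hw

theorem sc_blk [TopologicalSpace G] {R : G →* Matrix (Fin n) (Fin n) ℚ_[ℓ]}
    (hbd : ∀ g, BD c (R g)) (i : Fin r)
    (h : ∀ (A : Matrix {a : Fin n // c a = i} {a : Fin n // c a = i} ℚ_[ℓ]) (U : Subgroup G),
      IsOpen (U : Set G) → (∀ σ ∈ U, A * blk c i (R σ) = blk c i (R σ) * A) →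
      ∃ z : ℚ_[ℓ], A = z • (1 : Matrix {a : Fin n // c a = i} {a : Fin n // c a = i} ℚ_[ℓ])) :
    SC (rp c R hbd i) := by
  intro A U hU hA
  obtain ⟨z, hz⟩ := h (A.submatrix (eb c i) (eb c i)) U hU (by
    intro σ hσ
    have h1 : (A * rp c R hbd i σ).submatrix (eb c i) (eb c i) =
      (rp c R hbd i σ * A).submatrix (eb c i) (eb c i) :=
      congrArg (fun M => M.submatrix (eb c i) (eb c i)) (hA σ hσ)
    rw [← Matrix.submatrix_mul_equiv A _ _ (eb c i) _, ← Matrix.submatrix_mul_equiv _ A _ (eb c i) _] at h1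
    have h2 : (rp c R hbd i σ).submatrix (eb c i) (eb c i) = blk c i (R σ) := by
      rw [rp_apply, pk_blk, Matrix.submatrix_submatrix]
      simp
    rw [h2] at h1
    exact h1)
  refine ⟨z, ?_⟩
  have h3 : (A.submatrix (eb c i) (eb c i)).submatrix (eb c i).symm (eb c i).symm =
      (z • (1 : Matrix {a : Fin n // c a = i} {a : Fin n // c a = i} ℚ_[ℓ])).submatrix
        (eb c i).symm (eb c i).symm :=
    congrArg (fun M => M.submatrix (eb c i).symm (eb c i).symm) hz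
  rw [Matrix.submatrix_submatrix, Matrix.submatrix_smul, Pi.smul_apply, Pi.smul_apply,
    Matrix.submatrix_one_equiv] at h3
  rw [← h3]
  ext a b
  simp

end

end Pool.Agent.R932.H2
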