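import Pool.Agent.R932.H2.Cv
import Pool.Agent.R932.FP.Main
import Pool.Agent.R932.SQ.Tw

/-!
# The Mumford-Tate conjecture for several pieces, from Frobenius polynomials at one prime
-/

set_option autoImplicit false
set_option linter.unusedSectionVars false
set_option linter.style.haveILetI false

open Matrix Filter Topology NumberField IsDedekindDomain
open Pool.Agent.W544.PG (HS BD bl)
open Pool.Agent.Y142.ZO Pool.Agent.Y142.ZS Pool.Agent.Y95.MT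
open Pool.Agent.R932.PO (JTan IsForm Kind Fits Allows Sys)
open Pool.Agent.R932.EV (SS SC)
open Pool.Agent.R932.FP (CondK Indep)

namespace Pool.Agent.R932.H2

noncomputable section

/-- pure of weight zero, and integral after one twist -/
def Weil {K : Type} [Field K] [NumberField K] (S : Set (HeightOneSpectrum (𝓞 K)))
    (P : HeightOneSpectrum (𝓞 K) → Polynomial ℚ) : Prop :=
  ∀ v ∉ S, (P v).Monic ∧ (∀ z : ℂ, Polynomial.aeval z (P v) = 0 → ‖z‖ = 1) ∧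
    ∃ Q : Polynomial ℤ, (P v).scaleRoots (Ideal.absNorm v.asIdeal : ℚ) = Q.map (algebraMap ℤ ℚ)

section joint
variable {K : Type} [Field K] [NumberField K] {ι : Type} [Fintype ι] [DecidableEq ι] {N : ι → ℕ}
  {S : Set (HeightOneSpectrum (𝓞 K))} {P : ι → HeightOneSpectrum (𝓞 K) → Polynomial ℚ}
  {kd : ι → Kind}

/-- **the joint Lie algebra at one prime**, orthogonal representations -/
theorem joint_orth (ℓ : ℕ) [hℓ : Fact ℓ.Prime] (J : ∀ i, Matrix (Fin (N i)) (Fin (N i)) ℚ_[ℓ])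
    (hfit : ∀ i, Fits (kd i) (J i)) (hdet : ∀ i, (J i).det ≠ 0) (hsym : ∀ i, (J i)ᵀ = J i)
    (hN : ∀ i, 5 ≤ N i)
    (R : ∀ i : ι, GK K →* Matrix (Fin (N i)) (Fin (N i)) ℚ_[ℓ]) (hc : ∀ i : ι, Continuous (R i))
    (hiso : ∀ (i : ι) (g : GK K), (R i g)ᵀ * J i * R i g = J i)
    (hfrob : ∀ i : ι, ∀ v ∉ S, (ℓ : 𝓞 K) ∉ v.asIdeal → ∀ σ : GK K,
      IsFrobenius v σ → (R i σ⁻¹).charpoly = (P i v).map (algebraMap ℚ ℚ_[ℓ]))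
    (hcond : ∀ i, CondK (kd i) S (P i) (fun _ => 1) (N i) ℓ)
    (hpair : ∀ i j, i ≠ j → ∃ v ∉ S, (ℓ : 𝓞 K) ∉ v.asIdeal ∧ Indep 1 (P i v) (P j v)) :
    ∀ X, (∀ i, SpLie (J i) (X i)) → JTan ℓ R X := by
  classical
  have hform : ∀ i : ι, IsForm (J i) := fun i => (hfit i).isForm (hdet i)
  have hsim1 : ∀ i, ∀ g : GK K, Sim (J i) (R i g) 1 := by
    intro i g
    unfold Sim
    rw [one_smul]
    exact hiso i g
  have hsim : ∀ i, ∀ g : GK K, ∃ c, Sim (J i) (R i g) c := fun i g => ⟨1, hsim1 i g⟩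
  have hfs : ∀ i : ι, ∀ v ∉ S, (ℓ : 𝓞 K) ∉ v.asIdeal → ∀ σ : GK K, IsFrobenius v σ →
      Sim (J i) (R i σ⁻¹) (((1 : ℚ)) : ℚ_[ℓ]) := by
    intro i v hv hvℓ σ hσ
    rw [Rat.cast_one]
    exact hsim1 i _
  have hone : ∀ i X, SpLie (J i) X → IsTangent ℓ (R i) X := by
    intro i
    have h1 := hfit i
    have h2 := hcond i
    cases hk : kd i with
    | sym =>
      rw [hk] at h1
      intro X _
      exfalso
      have h3 : (J i)ᵀ = -J i := h1.1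
      rw [hsym i] at h3
      have h4 : J i = 0 := by
        ext a b
        have h5 := congrFun (congrFun h3 a) b
        rw [Matrix.neg_apply] at h5
        exact self_eq_neg.1 h5
      have h6 := hN i
      have : Nonempty (Fin (N i)) := ⟨⟨0, by omega⟩⟩
      exact hdet i (by rw [h4, det_zero])
    | even =>
      rw [hk] at h2
      exact Pool.Agent.R932.FP.full_oe (q := fun _ => 1) (by have := hN i; omega) (hc i) (hsym i)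
        (hdet i) (fun g => hiso i g) (fun _ => rfl) (fun v hv hvℓ σ hσ => hfrob i v hv hvℓ σ hσ) h2
    | odd =>
      rw [hk] at h2
      exact Pool.Agent.R932.FP.full_oo (by have := hN i; omega) (hc i) (hsym i) (hdet i)
        (fun g => hiso i g) (fun v hv hvℓ σ hσ => hfrob i v hv hvℓ σ hσ) h2
  refine PO.joint_full PO.jlie PO.jlift PO.gour (PO.pair PO.jlie PO.jlift)
    (ρ := R) hc hform hsim hone ?_
  intro i j hij Θ h1 h2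
  obtain ⟨v, hv, hvℓ, x, hx, hxm⟩ := hpair i j hij
  obtain ⟨σ, hσ⟩ := Pool.Agent.W401.Frob.exists_frob v
  exact PO.eqv ℓ (N i) (N j) (GK K) (R i) (R j) (hc i) (J i) (hform i)
    (hsim i) (hone i) σ⁻¹ (P i v) (P j v) _ (hfrob i v hv hvℓ σ hσ) (hfs i v hv hvℓ σ hσ)
    (hfrob j v hv hvℓ σ hσ) x hx hxm Θ h1 h2

end joint

variable {n r : ℕ} {c : Fin n → Fin r} {κ : Type} [Fintype κ] [DecidableEq κ] {p q : Fin r → ℕ}
  {Γ : Type} [Group Γ] [TopologicalSpace Γ] [IsTopologicalGroup Γ] [CompactSpace Γ] {T : HS n}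
  {K : Type} [Field K] [NumberField K] {S : Set (HeightOneSpectrum (𝓞 K))}
  {P : Fin r → HeightOneSpectrum (𝓞 K) → Polynomial ℚ} {s : GK K →* Γ}

/-- **the Mumford-Tate conjecture for several pieces, from Frobenius polynomials at one prime** -/
theorem mt_fp {kd : Fin r → Kind} (hB : T.Big c p q) (hS : S.Finite) (hs : Continuous s)
    (hfit : ∀ (i : Fin r) (ℓ : ℕ) [Fact ℓ.Prime], Fits (kd i) (Jb c T ℓ i))
    (h5 : ∀ i, 5 ≤ nb c i)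
    (α : ∀ (ℓ : ℕ) [Fact ℓ.Prime], Γ →* Matrix κ κ ℚ_[ℓ])
    (hα : ∀ (ℓ : ℕ) [Fact ℓ.Prime], Continuous (α ℓ) ∧ (Set.range (α ℓ)).Finite)
    (β : ∀ (ℓ : ℕ) [Fact ℓ.Prime], Γ →* Matrix (Fin n) (Fin n) ℤ_[ℓ])
    (hβ : ∀ (ℓ : ℕ) [Fact ℓ.Prime], Continuous (β ℓ))
    (hbd : ∀ (ℓ : ℕ) [Fact ℓ.Prime], ∀ σ, BD c (β ℓ σ))
    (hform : ∀ (ℓ : ℕ) [Fact ℓ.Prime], ∀ σ, (qm (β ℓ σ))ᵀ * T.Q.map (algebraMap ℚ ℚ_[ℓ]) *
      qm (β ℓ σ) = T.Q.map (algebraMap ℚ ℚ_[ℓ]))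
    (hfrob : ∀ (i : Fin r) (ℓ : ℕ) [Fact ℓ.Prime], ∀ v ∉ S, (ℓ : 𝓞 K) ∉ v.asIdeal → ∀ σ : GK K,
      IsFrobenius v σ → (pk c i (qm (β ℓ (s σ⁻¹)))).charpoly = (P i v).map (algebraMap ℚ ℚ_[ℓ]))
    (ℓ₀ : ℕ) [hℓ₀ : Fact ℓ₀.Prime] (hal : ∀ i, Allows (kd i) (nb c i) ℓ₀ (Jb c T ℓ₀ i))
    (hcond : ∀ i, CondK (kd i) S (P i) (fun _ => 1) (nb c i) ℓ₀)
    (hpair : ∀ i j, i ≠ j → ∃ v ∉ S, (ℓ₀ : 𝓞 K) ∉ v.asIdeal ∧ Indep 1 (P i v) (P j v)) :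
    MTC (hM (fun _ => (1 : Matrix κ κ ℂ)) T) (tot (α ℓ₀) (β ℓ₀)) ∧
    Y142.ZI.DensityZero {ℓ | ∃ _ : Fact ℓ.Prime,
      ¬ MTC (hM (fun _ => (1 : Matrix κ κ ℂ)) T) (tot (α ℓ) (β ℓ))} ∧
    ∀ (ℓ : ℕ) [Fact ℓ.Prime], (∀ i, SS (rp c (qrep (β ℓ)) (qbd (hbd ℓ)) i)) ∨
        (Module.finrank ℚ K = 1 ∧ ∀ i, Weil S (P i)) →
      (∀ i, SC (rp c (qrep (β ℓ)) (qbd (hbd ℓ)) i)) →
      MTC (hM (fun _ => (1 : Matrix κ κ ℂ)) T) (tot (α ℓ) (β ℓ)) := by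
  have hcq : ∀ (ℓ : ℕ) [Fact ℓ.Prime], Continuous (qrep (β ℓ)) := fun ℓ _ =>
    continuous_qm.comp (hβ ℓ)
  have hbQ : ∀ (ℓ : ℕ) [Fact ℓ.Prime], BD c (T.Q.map (algebraMap ℚ ℚ_[ℓ])) := fun ℓ _ =>
    bd_map hB.bQ (map_zero _)
  have hiso : ∀ (ℓ : ℕ) [Fact ℓ.Prime] (i : Fin r) (g : Γ),
      (rp c (qrep (β ℓ)) (qbd (hbd ℓ)) i g)ᵀ * Jb c T ℓ i * rp c (qrep (β ℓ)) (qbd (hbd ℓ)) i g =
        Jb c T ℓ i := by
    intro ℓ _ i g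
    have h1 := hform ℓ g
    have h2 := congrArg (pk c i) h1
    have h3 : BD c (qm (β ℓ g)) := qbd (hbd ℓ) g
    rw [pk_mul (bd_mul (bd_trans h3) (hbQ ℓ)), pk_mul (bd_trans h3), pk_trans] at h2
    exact h2
  have hsys : ∀ (i : Fin r) (ℓ : ℕ) [Fact ℓ.Prime], Sys s (kd i) (nb c i) ℓ
      (rp c (qrep (β ℓ)) (qbd (hbd ℓ)) i) (Jb c T ℓ i) S (P i) (fun _ => 1) := by
    intro i ℓ _
    refine ⟨continuous_rp (hcq ℓ) _ i, hfit i ℓ, Jb_det hB.bQ ℓ i, fun γ => ⟨1, ?_, fun _ => rfl⟩,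
      fun v hv hvℓ σ hσ => ⟨hfrob i ℓ v hv hvℓ σ hσ, ?_⟩⟩
    · rw [one_smul]
      exact hiso ℓ i γ
    · rw [Rat.cast_one, one_smul]
      exact hiso ℓ i _
  have hfull₀ : ∀ X, (∀ i, SpLie (Jb c T ℓ₀ i) (X i)) →
      JTan ℓ₀ (fun i => (rp c (qrep (β ℓ₀)) (qbd (hbd ℓ₀)) i).comp s) X :=
    joint_orth (kd := kd) ℓ₀ (fun i => Jb c T ℓ₀ i) (fun i => hfit i ℓ₀)
      (fun i => Jb_det hB.bQ ℓ₀ i) (fun i => Jb_symm ℓ₀ i) h5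
      (fun i => (rp c (qrep (β ℓ₀)) (qbd (hbd ℓ₀)) i).comp s)
      (fun i => (continuous_rp (hcq ℓ₀) (qbd (hbd ℓ₀)) i).comp hs) (fun i g => hiso ℓ₀ i (s g))
      (fun i v hv hvℓ σ hσ => hfrob i ℓ₀ v hv hvℓ σ hσ) hcond hpair
  have hsev := PO.several (K := K) PO.tasks hs hS
    (fun (i : Fin r) (ℓ : ℕ) (_ : Fact ℓ.Prime) => rp c (qrep (β ℓ)) (qbd (hbd ℓ)) i)
    (fun (i : Fin r) (ℓ : ℕ) (_ : Fact ℓ.Prime) => Jb c T ℓ i) hsys ℓ₀ hal hfull₀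
  refine ⟨?_, ?_, ?_⟩
  · refine mtc_of_joint hB (hα ℓ₀).1 (hα ℓ₀).2 (hβ ℓ₀) (hbd ℓ₀) (hform ℓ₀) fun X hX => ?_
    obtain ⟨σ, hσ⟩ := hfull₀ X hX
    exact ⟨fun k => s (σ k), hσ⟩
  · refine Y142.ZI.DensityZero.mono hsev.1 ?_
    rintro ℓ ⟨hp, hno⟩
    refine ⟨hp, fun hall => hno ?_⟩
    refine mtc_of_joint hB (hα ℓ).1 (hα ℓ).2 (hβ ℓ) (hbd ℓ) (hform ℓ) fun X hX => ?_
    obtain ⟨σ, hσ⟩ := hall X hX
    exact ⟨fun k => s (σ k), hσ⟩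
  · intro ℓ _ hss hsc
    have hss' : ∀ i, SS (rp c (qrep (β ℓ)) (qbd (hbd ℓ)) i) := by
      rcases hss with h | ⟨hK, hW⟩
      · exact h
      · intro i
        refine Pool.Agent.R932.SQ.ss_all hK s (w := 0) (c := 1) (by norm_num) hS (P i)
          (fun v hv => ⟨(hW i v hv).1, fun z hz => ?_, ?_⟩)
          (fun ℓ _ => rp c (qrep (β ℓ)) (qbd (hbd ℓ)) i)
          (fun ℓ _ => (continuous_rp (hcq ℓ) (qbd (hbd ℓ)) i).comp hs) (fun ℓ _ => Jb c T ℓ i)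
          (fun ℓ _ => Or.inl (Jb_symm ℓ i)) (fun ℓ _ => Jb_det hB.bQ ℓ i) (fun _ _ _ => 1)
          (fun ℓ _ g => by rw [one_smul]; exact hiso ℓ i g)
          (fun ℓ _ v hv hvℓ σ hσ => ⟨hfrob i ℓ v hv hvℓ σ hσ, by rw [pow_zero]⟩) ℓ₀
          (fun X hX => PO.one_of_joint hfull₀ i X hX) ℓ
        · rw [(hW i v hv).2.1 z hz, one_pow, pow_zero]
        · rw [pow_one]
          exact (hW i v hv).2.2
    exact mtc_of_joint hB (hα ℓ).1 (hα ℓ).2 (hβ ℓ) (hbd ℓ) (hform ℓ) fun X hX =>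
      hsev.2 ℓ hss' hsc X hX

end

end Pool.Agent.R932.H2
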