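import Pool.Agent.R932.H2.Lie

/-!
# From the Zariski closure to tangent vectors: conclusion
-/

set_option autoImplicit false
set_option linter.unusedSectionVars false
set_option linter.style.haveILetI false

open Matrix Filter Topology
open Pool.Agent.W544.PG (BD bl)
open Pool.Agent.Y142.ZO Pool.Agent.Y142.ZS
open Pool.Agent.R932.PO (JTan IsForm S_JLIE S_JLIFT skew_sp)

namespace Pool.Agent.R932.H2

noncomputable section

variable {n r : ℕ} {c : Fin n → Fin r} {ℓ : ℕ} [hℓ : Fact ℓ.Prime] {G : Type} [Group G]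
  [TopologicalSpace G] [IsTopologicalGroup G] [CompactSpace G]

theorem single_sp {ι : Type} [DecidableEq ι] {N : ι → ℕ}
    {J : ∀ i, Matrix (Fin (N i)) (Fin (N i)) ℚ_[ℓ]} (i : ι)
    {X : Matrix (Fin (N i)) (Fin (N i)) ℚ_[ℓ]} (hX : SpLie (J i) X) (j : ι) :
    SpLie (J j) ((Pi.single i X : ∀ i, Matrix (Fin (N i)) (Fin (N i)) ℚ_[ℓ]) j) := by
  by_cases hj : j = i
  · subst hj
    rw [Pi.single_eq_same]
    exact hX
  · rw [Pi.single_eq_of_ne hj]
    unfold SpLie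
    rw [transpose_zero, zero_mul, mul_zero, add_zero]

/-- the image on every block is infinite, in terms of the Lie algebra -/
theorem exists_comp {R : G →* Matrix (Fin n) (Fin n) ℚ_[ℓ]} (hR : Continuous R)
    (hbd : ∀ g, BD c (R g)) {J : ∀ i, Matrix (Fin (nb c i)) (Fin (nb c i)) ℚ_[ℓ]}
    (hJ : ∀ i, (J i)ᵀ = J i) (hJd : ∀ i, (J i).det ≠ 0) (hN : ∀ i, 5 ≤ nb c i)
    (hZ : ZarFull c R J) (i : Fin r) : ∃ X, JTan ℓ (rp c R hbd) X ∧ X i ≠ 0 := by
  classical
  by_contra hcon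
  push Not at hcon
  have hzero : ∀ Y, IsTangent ℓ (rp c R hbd i) Y → Y = 0 := by
    intro Y hY
    obtain ⟨X, hX, hXi⟩ := PO.jlift ℓ (Fin r) (nb c) G (rp c R hbd)
      (fun i => continuous_rp hR hbd i) i Y hY
    rw [← hXi]
    exact hcon X hX
  obtain ⟨U, hU, hUr⟩ := Y497.ZO.exp ℓ (nb c i) G (rp c R hbd i) (continuous_rp hR hbd i) ⊥ ⊤
    bot_le (fun Y hY w _ => by
      rw [hzero Y hY, zero_mulVec]
      exact Submodule.zero_mem _)
  have hone : ∀ σ ∈ U, pk c i (R σ) = 1 := by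
    intro σ hσ
    have h1 : ∀ w, rp c R hbd i σ *ᵥ w = w := by
      intro w
      have h2 := hUr σ hσ w Submodule.mem_top
      rw [Submodule.mem_bot, sub_eq_zero] at h2
      exact h2
    ext a b
    have h2 := congrFun (h1 (Pi.single b 1)) a
    rw [mulVec_single_one, rp_apply] at h2
    rw [Matrix.one_apply]
    rw [Matrix.col_apply] at h2
    rw [h2, Pi.single_apply]
  haveI : U.FiniteIndex := by
    haveI := U.quotient_finite_of_isOpen hU
    exact Subgroup.finiteIndex_of_finite_quotient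
  -- all isometries of determinant one are trivial
  have hall : ∀ t : Matrix (Fin (nb c i)) (Fin (nb c i)) ℚ_[ℓ], tᵀ * J i * t = J i → t.det = 1 →
      t = 1 := by
    intro t ht htd
    ext a b
    let f : Pol ℓ n := MvPolynomial.X (ix c i a, ix c i b) -
      MvPolynomial.C ((1 : Matrix (Fin (nb c i)) (Fin (nb c i)) ℚ_[ℓ]) a b)
    have hf : ∀ A : Matrix (Fin n) (Fin n) ℚ_[ℓ], evm A f = pk c i A a b -
        (1 : Matrix (Fin (nb c i)) (Fin (nb c i)) ℚ_[ℓ]) a b := by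
      intro A
      show evm A (MvPolynomial.X (ix c i a, ix c i b) -
        MvPolynomial.C ((1 : Matrix (Fin (nb c i)) (Fin (nb c i)) ℚ_[ℓ]) a b)) = _
      unfold evm
      rw [map_sub, MvPolynomial.eval_X, MvPolynomial.eval_C]
      rfl
    have hne : ∀ j, j ≠ i → Function.update (fun j : Fin r =>
        (1 : Matrix (Fin (nb c j)) (Fin (nb c j)) ℚ_[ℓ])) i t j = 1 := fun j hj =>
      Function.update_of_ne hj _ _
    have h1 := hZ f ⟨U, inferInstance, fun g hg => by rw [hf, hone g hg, sub_self]⟩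
      (Function.update (fun j => 1) i t) (fun j => by
        by_cases hj : j = i
        · subst hj
          rw [Function.update_self]
          exact ht
        · rw [hne j hj, transpose_one, one_mul, mul_one]) (fun j => by
        by_cases hj : j = i
        · subst hj
          rw [Function.update_self]
          exact htd
        · rw [hne j hj, det_one])
    rw [hf, pk_gl, Function.update_self, sub_eq_zero] at h1
    exact h1
  obtain ⟨Y, Y', hY, hY', hYY⟩ := PO.pos_noncomm (K := ℚ_[ℓ]) (J := J i)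
    ⟨Or.inl ⟨hJ i, hN i⟩, hJd i⟩ (by have := hN i; omega)
  obtain ⟨t, ht, htd, htl⟩ := cay_seq (hJ i) (hJd i) hY
  haveI : T2Space (Matrix (Fin (nb c i)) (Fin (nb c i)) ℚ_[ℓ]) :=
    inferInstanceAs (T2Space (Fin (nb c i) → Fin (nb c i) → ℚ_[ℓ]))
  have h1 : Y = 0 := by
    refine tendsto_nhds_unique htl ?_
    refine tendsto_const_nhds.congr fun k => ?_
    rw [hall (t k) (ht k) (htd k), sub_self, smul_zero]
  apply hYY
  rw [h1, zero_mul, mul_zero, sub_zero]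

/-- **if the Zariski closure contains the isometries of determinant one then the joint Lie algebra is
full** -/
theorem joint_of_zar {R : G →* Matrix (Fin n) (Fin n) ℚ_[ℓ]} (hR : Continuous R)
    (hbd : ∀ g, BD c (R g)) {J : ∀ i, Matrix (Fin (nb c i)) (Fin (nb c i)) ℚ_[ℓ]}
    (hJ : ∀ i, (J i)ᵀ = J i) (hJd : ∀ i, (J i).det ≠ 0) (hN : ∀ i, 5 ≤ nb c i)
    (hiso : ∀ i g, (rp c R hbd i g)ᵀ * J i * rp c R hbd i g = J i) (hZ : ZarFull c R J)
    (X : ∀ i, Matrix (Fin (nb c i)) (Fin (nb c i)) ℚ_[ℓ]) (hX : ∀ i, SpLie (J i) (X i)) :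
    JTan ℓ (rp c R hbd) X := by
  classical
  obtain ⟨𝔤, h𝔤, hbr, hconj⟩ := PO.jlie ℓ (Fin r) (nb c) G (rp c R hbd)
  have hst := fun X hX t ht htd => conj_stable hbd hJd hiso hZ 𝔤 hconj (X := X) hX (t := t) ht htd
  have hlie := fun {X} {Y} hX hY => lie_stable hJ hJd 𝔤 hst (X := X) (Y := Y) hX hY
  have hskew : ∀ X ∈ 𝔤, ∀ i, SpLie (J i) (X i) := by
    intro X hX i
    obtain ⟨σ, hσ⟩ := (h𝔤 X).1 hX
    obtain ⟨𝔥, h1, -, -, h2⟩ := Y708.ZO.t ℓ (nb c i) G (rp c R hbd i)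
    exact (skew_sp (hJ i)).1 (h2 (J i) (hJ i) (fun g => hiso i g) (X i) ((h1 _).2 ⟨σ, hσ i⟩))
  have key : ∀ i (Z : Matrix (Fin (nb c i)) (Fin (nb c i)) ℚ_[ℓ]), SpLie (J i) Z →
      Pi.single i Z ∈ 𝔤 := by
    intro i
    obtain ⟨X₀, hX₀, hne⟩ := exists_comp hR hbd hJ hJd hN hZ i
    have hX₀' := (h𝔤 X₀).2 hX₀
    let I : Submodule ℚ_[ℓ] (Matrix (Fin (nb c i)) (Fin (nb c i)) ℚ_[ℓ]) :=
      𝔤.comap (LinearMap.single ℚ_[ℓ]
        (fun i => Matrix (Fin (nb c i)) (Fin (nb c i)) ℚ_[ℓ]) i)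
    have hI : ∀ Z, Z ∈ I ↔ (Pi.single i Z : ∀ i, Matrix (Fin (nb c i)) (Fin (nb c i)) ℚ_[ℓ]) ∈ 𝔤 :=
      fun Z => Iff.rfl
    have hfun : ∀ (Y : Matrix (Fin (nb c i)) (Fin (nb c i)) ℚ_[ℓ])
        (X : ∀ i, Matrix (Fin (nb c i)) (Fin (nb c i)) ℚ_[ℓ]),
        (fun j => (Pi.single i Y : ∀ i, Matrix (Fin (nb c i)) (Fin (nb c i)) ℚ_[ℓ]) j * X j -
          X j * (Pi.single i Y : ∀ i, Matrix (Fin (nb c i)) (Fin (nb c i)) ℚ_[ℓ]) j) =
        Pi.single i (Y * X i - X i * Y) := by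
      intro Y X
      funext j
      by_cases hj : j = i
      · subst hj
        rw [Pi.single_eq_same, Pi.single_eq_same]
      · rw [Pi.single_eq_of_ne hj, Pi.single_eq_of_ne hj, zero_mul, mul_zero, sub_zero]
    -- a nonzero element
    obtain ⟨Y, hY, hY0⟩ : ∃ Y, SpLie (J i) Y ∧ Y * X₀ i - X₀ i * Y ≠ 0 := by
      by_contra hcon
      push Not at hcon
      exact hne (PO.center_zero (K := ℚ_[ℓ]) (J := J i) ⟨Or.inl ⟨hJ i, hN i⟩, hJd i⟩
        (hskew X₀ hX₀' i) hcon)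
    have h1 : (Y * X₀ i - X₀ i * Y) ∈ I := by
      rw [hI, ← hfun]
      exact hlie hX₀' (single_sp i hY)
    have h2 : SpLie (J i) (Y * X₀ i - X₀ i * Y) := by
      have h3 := hskew _ h1 i
      have h4 : (LinearMap.single ℚ_[ℓ] (fun i => Matrix (Fin (nb c i)) (Fin (nb c i)) ℚ_[ℓ]) i
          (Y * X₀ i - X₀ i * Y)) i = Y * X₀ i - X₀ i * Y := Pi.single_eq_same i _
      rwa [h4] at h3
    intro Z hZs
    rw [← hI]
    refine so_ideal (hJ i) (hJd i) (hN i) I (fun A hA B hB => ?_) h1 h2 hY0 hZs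
    have h5 := hlie (X := Pi.single i B) (Y := Pi.single i A) hB (single_sp i hA)
    rw [hfun, Pi.single_eq_same] at h5
    exact h5
  refine (h𝔤 X).1 ?_
  rw [← Finset.univ_sum_single X]
  exact 𝔤.sum_mem fun i _ => key i (X i) (hX i)

end

end Pool.Agent.R932.H2
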