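import Pool.Agent.R932.H2.Zar
import Pool.Agent.R932.OP.NtCay

/-!
# From the Zariski closure to tangent vectors: the Lie algebra
-/

set_option autoImplicit false
set_option linter.unusedSectionVars false
set_option linter.style.haveILetI false

open Matrix Filter Topology
open Pool.Agent.W544.PG (BD bl)
open Pool.Agent.Y142.ZO Pool.Agent.Y142.ZS
open Pool.Agent.R932.PO (JTan IsForm S_JLIE S_JLIFT skew_sp)

namespace Pool.Agent.R932.H2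

noncomputable section

section cay
variable {ℓ : ℕ} [hℓ : Fact ℓ.Prime] {N : ℕ}

theorem seq_one {a : ℕ → Matrix (Fin N) (Fin N) ℚ_[ℓ]} {X : Matrix (Fin N) (Fin N) ℚ_[ℓ]}
    (h : Tendsto (fun n : ℕ => ((ℓ : ℚ_[ℓ]) ^ n)⁻¹ • (a n - 1)) atTop (𝓝 X)) :
    Tendsto a atTop (𝓝 1) := by
  have h2 : Tendsto (fun k : ℕ => (ℓ : ℚ_[ℓ]) ^ k • (((ℓ : ℚ_[ℓ]) ^ k)⁻¹ • (a k - 1)) + 1)
      atTop (𝓝 ((0 : ℚ_[ℓ]) • X + 1)) := by
    refine Tendsto.add (Tendsto.smul ?_ h) tendsto_const_nhds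
    refine tendsto_pow_atTop_nhds_zero_of_norm_lt_one ?_
    rw [Padic.norm_p]
    exact inv_lt_one_of_one_lt₀ (by exact_mod_cast (Fact.out : ℓ.Prime).one_lt)
  rw [zero_smul, zero_add] at h2
  refine h2.congr fun k => ?_
  have hk : (ℓ : ℚ_[ℓ]) ^ k ≠ 0 := pow_ne_zero _ (by exact_mod_cast (Fact.out : ℓ.Prime).ne_zero)
  rw [smul_smul, mul_inv_cancel₀ hk, one_smul, sub_add_cancel]

/-- the group of isometries -/
def isoG (J : Matrix (Fin N) (Fin N) ℚ_[ℓ]) : Subgroup (Matrix (Fin N) (Fin N) ℚ_[ℓ])ˣ where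
  carrier := {u | (u.1)ᵀ * J * u.1 = J}
  one_mem' := by
    show (1 : Matrix (Fin N) (Fin N) ℚ_[ℓ])ᵀ * J * 1 = J
    rw [transpose_one, one_mul, mul_one]
  mul_mem' := by
    intro a b ha hb
    show (a.1 * b.1)ᵀ * J * (a.1 * b.1) = J
    have h1 : (a.1)ᵀ * J * a.1 = J := ha
    have h2 : (b.1)ᵀ * J * b.1 = J := hb
    rw [transpose_mul]
    calc (b.1)ᵀ * (a.1)ᵀ * J * (a.1 * b.1) = (b.1)ᵀ * ((a.1)ᵀ * J * a.1) * b.1 := by
          simp only [mul_assoc]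
      _ = J := by rw [h1, h2]
  inv_mem' := by
    intro a ha
    show (a⁻¹.1)ᵀ * J * a⁻¹.1 = J
    have h1 : (a.1)ᵀ * J * a.1 = J := ha
    have h2 : a.1 * a⁻¹.1 = 1 := a.mul_inv
    calc (a⁻¹.1)ᵀ * J * a⁻¹.1 = (a⁻¹.1)ᵀ * ((a.1)ᵀ * J * a.1) * a⁻¹.1 := by rw [h1]
      _ = (a.1 * a⁻¹.1)ᵀ * J * (a.1 * a⁻¹.1) := by
          rw [transpose_mul]
          simp only [mul_assoc]
      _ = J := by rw [h2, transpose_one, one_mul, mul_one]

theorem det_iso {J g : Matrix (Fin N) (Fin N) ℚ_[ℓ]} (hd : J.det ≠ 0) (hg : gᵀ * J * g = J) :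
    g.det * g.det = 1 := by
  have h1 := congrArg Matrix.det hg
  rw [det_mul, det_mul, det_transpose] at h1
  have h2 : J.det * (g.det * g.det - 1) = 0 := by linear_combination h1
  have h3 := (mul_eq_zero.1 h2).resolve_left hd
  linear_combination h3

/-- isometries of determinant one in the direction of a skew matrix -/
theorem cay_seq {J Y : Matrix (Fin N) (Fin N) ℚ_[ℓ]} (hJ : Jᵀ = J) (hd : J.det ≠ 0)
    (hY : SpLie J Y) : ∃ t : ℕ → Matrix (Fin N) (Fin N) ℚ_[ℓ],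
      (∀ n, (t n)ᵀ * J * t n = J) ∧ (∀ n, (t n).det = 1) ∧
      Tendsto (fun n : ℕ => ((ℓ : ℚ_[ℓ]) ^ n)⁻¹ • (t n - 1)) atTop (𝓝 Y) := by
  let ρ : isoG J →* Matrix (Fin N) (Fin N) ℚ_[ℓ] :=
    { toFun := fun u => u.1.1
      map_one' := rfl
      map_mul' := fun _ _ => rfl }
  have h1 : SpLie J ((2 : ℚ_[ℓ])⁻¹ • Y) := by
    unfold SpLie at *
    rw [transpose_smul, smul_mul_assoc, mul_smul_comm, ← smul_add, hY, smul_zero]
  obtain ⟨σ, hσ⟩ := OP.cay ℓ N (isoG J) ρ J hJ hd ⟨1, one_pos, fun g hg _ => by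
    have hu : IsUnit g.det := by
      have := det_iso hd hg
      exact IsUnit.of_mul_eq_one _ this
    exact ⟨⟨((Matrix.isUnit_iff_isUnit_det g).2 hu).unit, hg⟩, rfl⟩⟩ _ ((skew_sp hJ).2 h1)
  have hone := seq_one hσ
  refine ⟨fun n => ρ (σ n) * ρ (σ n), fun n => ?_, fun n => ?_, ?_⟩
  · have h2 : (σ n * σ n) ∈ (⊤ : Subgroup (isoG J)) := trivial
    have h3 : (ρ (σ n * σ n))ᵀ * J * ρ (σ n * σ n) = J := (σ n * σ n).2
    rwa [map_mul] at h3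
  · rw [det_mul]
    exact det_iso hd (σ n).2
  · have h2 : Tendsto (fun n : ℕ => ((ℓ : ℚ_[ℓ]) ^ n)⁻¹ • (ρ (σ n) - 1) * (ρ (σ n) + 1)) atTop
        (𝓝 ((2 : ℚ_[ℓ])⁻¹ • Y * (1 + 1))) :=
      Tendsto.mul hσ (hone.add tendsto_const_nhds)
    have h3 : (2 : ℚ_[ℓ])⁻¹ • Y * (1 + 1) = Y := by
      have h4 : (1 + 1 : Matrix (Fin N) (Fin N) ℚ_[ℓ]) = (2 : ℚ_[ℓ]) • 1 := by
        rw [two_smul]
      rw [h4, mul_smul_comm, mul_one, smul_smul, mul_inv_cancel₀ two_ne_zero, one_smul]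
    rw [h3] at h2
    refine h2.congr fun n => ?_
    rw [smul_mul_assoc]
    congr 1
    noncomm_ring

end cay

section lie
variable {n r : ℕ} {c : Fin n → Fin r} {ℓ : ℕ} [hℓ : Fact ℓ.Prime] {G : Type} [Group G]

/-- the joint Lie algebra is stable under brackets with all skew families -/
theorem lie_stable {ι : Type} [Fintype ι] {N : ι → ℕ}
    {J : ∀ i, Matrix (Fin (N i)) (Fin (N i)) ℚ_[ℓ]} (hJ : ∀ i, (J i)ᵀ = J i)
    (hJd : ∀ i, (J i).det ≠ 0)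
    (𝔤 : Submodule ℚ_[ℓ] (∀ i, Matrix (Fin (N i)) (Fin (N i)) ℚ_[ℓ]))
    (hst : ∀ X ∈ 𝔤, ∀ t : ∀ i, Matrix (Fin (N i)) (Fin (N i)) ℚ_[ℓ],
      (∀ i, (t i)ᵀ * J i * t i = J i) → (∀ i, (t i).det = 1) →
      (fun i => t i * X i * ((J i)⁻¹ * (t i)ᵀ * J i)) ∈ 𝔤)
    {X Y : ∀ i, Matrix (Fin (N i)) (Fin (N i)) ℚ_[ℓ]} (hX : X ∈ 𝔤) (hY : ∀ i, SpLie (J i) (Y i)) :
    (fun i => Y i * X i - X i * Y i) ∈ 𝔤 := by
  choose t ht htd htl using fun i => cay_seq (hJ i) (hJd i) (hY i)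
  haveI : ∀ i, T2Space (Matrix (Fin (N i)) (Fin (N i)) ℚ_[ℓ]) := fun i =>
    inferInstanceAs (T2Space (Fin (N i) → Fin (N i) → ℚ_[ℓ]))
  have hcl : IsClosed (𝔤 : Set (∀ i, Matrix (Fin (N i)) (Fin (N i)) ℚ_[ℓ])) :=
    Submodule.closed_of_finiteDimensional 𝔤
  have hlim : Tendsto (fun k : ℕ => ((ℓ : ℚ_[ℓ]) ^ k)⁻¹ •
      ((fun i => t i k * X i * ((J i)⁻¹ * (t i k)ᵀ * J i)) - X)) atTop
      (𝓝 (fun i => Y i * X i - X i * Y i)) := by
    refine tendsto_pi_nhds.2 fun i => ?_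
    have hu : IsUnit (J i).det := isUnit_iff_ne_zero.2 (hJd i)
    have h1 : Tendsto (fun k => t i k) atTop (𝓝 1) := seq_one (htl i)
    have hct : Continuous fun A : Matrix (Fin (N i)) (Fin (N i)) ℚ_[ℓ] => (J i)⁻¹ * Aᵀ * J i :=
      (continuous_const.mul (Continuous.matrix_transpose continuous_id)).mul continuous_const
    have h3 : Tendsto (fun k => (J i)⁻¹ * (t i k)ᵀ * J i) atTop (𝓝 1) := by
      have h4 := (hct.tendsto 1).comp h1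
      have h5 : (J i)⁻¹ * (1 : Matrix (Fin (N i)) (Fin (N i)) ℚ_[ℓ])ᵀ * J i = 1 := by
        rw [transpose_one, mul_one, nonsing_inv_mul _ hu]
      rw [h5] at h4
      exact h4
    have h6 : Tendsto (fun k : ℕ => ((ℓ : ℚ_[ℓ]) ^ k)⁻¹ • ((J i)⁻¹ * (t i k)ᵀ * J i - 1)) atTop
        (𝓝 (-Y i)) := by
      have h4 := (hct.tendsto (Y i)).comp (htl i)
      have h5 : (J i)⁻¹ * (Y i)ᵀ * J i = -Y i := by
        have h7 : (Y i)ᵀ * J i = -(J i * Y i) := eq_neg_of_add_eq_zero_left (hY i)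
        rw [mul_assoc, h7, mul_neg, ← mul_assoc, nonsing_inv_mul _ hu, one_mul]
      rw [h5] at h4
      refine h4.congr fun k => ?_
      show (J i)⁻¹ * (((ℓ : ℚ_[ℓ]) ^ k)⁻¹ • (t i k - 1))ᵀ * J i = _
      rw [transpose_smul, mul_smul_comm, smul_mul_assoc, transpose_sub, transpose_one, mul_sub,
        sub_mul, mul_one, nonsing_inv_mul _ hu]
    have h7 : Tendsto (fun k : ℕ => ((ℓ : ℚ_[ℓ]) ^ k)⁻¹ • (t i k - 1) *
        (X i * ((J i)⁻¹ * (t i k)ᵀ * J i)) +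
        X i * (((ℓ : ℚ_[ℓ]) ^ k)⁻¹ • ((J i)⁻¹ * (t i k)ᵀ * J i - 1))) atTop
        (𝓝 (Y i * (X i * 1) + X i * (-Y i))) :=
      Tendsto.add (Tendsto.mul (htl i) (Tendsto.mul tendsto_const_nhds h3))
        (Tendsto.mul tendsto_const_nhds h6)
    have h8 : Y i * (X i * 1) + X i * (-Y i) = Y i * X i - X i * Y i := by
      rw [mul_one, mul_neg, ← sub_eq_add_neg]
    rw [h8] at h7
    refine h7.congr fun k => ?_
    show _ = ((ℓ : ℚ_[ℓ]) ^ k)⁻¹ • (t i k * X i * ((J i)⁻¹ * (t i k)ᵀ * J i) - X i)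
    rw [smul_mul_assoc, mul_smul_comm, ← smul_add]
    congr 1
    noncomm_ring
  refine hcl.mem_of_tendsto hlim (Eventually.of_forall fun k => ?_)
  exact 𝔤.smul_mem _ (𝔤.sub_mem (hst X hX (fun i => t i k) (fun i => ht i k) fun i => htd i k) hX)

end lie

end

end Pool.Agent.R932.H2
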