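import Pool.Agent.R932.H2.Full

/-!
# The Mumford-Tate conjecture for several pieces, from one prime
-/

set_option autoImplicit false
set_option linter.unusedSectionVars false
set_option linter.style.haveILetI false

open Matrix Filter Topology NumberField IsDedekindDomain
open Pool.Agent.W544.PG (HS BD bl)
open Pool.Agent.Y142.ZO Pool.Agent.Y142.ZS Pool.Agent.Y95.MT
open Pool.Agent.R932.PO (JTan IsForm Kind Fits Allows Sys)
open Pool.Agent.R932.EV (SS SC)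

namespace Pool.Agent.R932.H2

noncomputable section

variable {n r : ℕ} {c : Fin n → Fin r} {κ : Type} [Fintype κ] [DecidableEq κ] {p q : Fin r → ℕ}
  {Γ : Type} [Group Γ] [TopologicalSpace Γ] [IsTopologicalGroup Γ] [CompactSpace Γ] {T : HS n}

/-- the form on a block over `ℚ_ℓ` -/
def Jb (c : Fin n → Fin r) (T : HS n) (ℓ : ℕ) [Fact ℓ.Prime] (i : Fin r) :
    Matrix (Fin (nb c i)) (Fin (nb c i)) ℚ_[ℓ] := pk c i (T.Q.map (algebraMap ℚ ℚ_[ℓ]))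

theorem Jb_symm (ℓ : ℕ) [Fact ℓ.Prime] (i : Fin r) : (Jb c T ℓ i)ᵀ = Jb c T ℓ i := by
  unfold Jb
  rw [← pk_trans, qsymm T]

theorem Jb_det (hb : BD c T.Q) (ℓ : ℕ) [Fact ℓ.Prime] (i : Fin r) : (Jb c T ℓ i).det ≠ 0 := by
  have hu : IsUnit (T.Q.map (algebraMap ℚ ℚ_[ℓ])).det := isUnit_iff_ne_zero.2 (qdet T)
  have h1 : Jb c T ℓ i * pk c i (T.Q.map (algebraMap ℚ ℚ_[ℓ]))⁻¹ = 1 := by
    unfold Jb
    rw [← pk_mul (bd_map hb (map_zero _)), mul_nonsing_inv _ hu, pk_one]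
  intro h2
  have h3 := congrArg Matrix.det h1
  rw [det_mul, h2, zero_mul, det_one] at h3
  exact zero_ne_one h3

theorem qbd {ℓ : ℕ} [Fact ℓ.Prime] {G : Type} [Group G] {β : G →* Matrix (Fin n) (Fin n) ℤ_[ℓ]}
    (h : ∀ σ, BD c (β σ)) (σ : G) : BD c (qrep β σ) := by
  rw [qrep_apply]
  exact bd_map (h σ) (map_zero _)

/-- from the Mumford-Tate conjecture to the Zariski closure -/
theorem zar_of_mtc {G : Type} [Group G] {ℓ : ℕ} [Fact ℓ.Prime] {s : G →* Γ}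
    {β : Γ →* Matrix (Fin n) (Fin n) ℤ_[ℓ]} {v : Γ →* Matrix κ κ ℚ_[ℓ]} (hB : T.Big c p q)
    (h : MTC (hM (fun _ => (1 : Matrix κ κ ℂ)) T) ((tot v β).comp s)) :
    ZarFull c ((qrep β).comp s) (Jb c T ℓ) := by
  rintro f ⟨Δ, hΔ, hf⟩ t ht htd
  obtain ⟨e⟩ := exists_emb ℓ
  obtain ⟨j, hj⟩ : ∃ j : ℚ_[ℓ] →+* AlgebraicClosure ℚ_[ℓ], j = algebraMap _ _ := ⟨_, rfl⟩
  let g : Matrix (κ ⊕ Fin n) (κ ⊕ Fin n) (AlgebraicClosure ℚ_[ℓ]) := fromBlocks 1 0 0 ((gl c t).map j)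
  let f' : MvPolynomial ((κ ⊕ Fin n) × (κ ⊕ Fin n)) (AlgebraicClosure ℚ_[ℓ]) :=
    MvPolynomial.rename (fun q : Fin n × Fin n => ((Sum.inr q.1, Sum.inr q.2) :
      (κ ⊕ Fin n) × (κ ⊕ Fin n))) (MvPolynomial.map j f)
  have hev : ∀ (A : Matrix κ κ (AlgebraicClosure ℚ_[ℓ])) (M : Matrix (Fin n) (Fin n) ℚ_[ℓ])
      (g' : Matrix (κ ⊕ Fin n) (κ ⊕ Fin n) (AlgebraicClosure ℚ_[ℓ])),
      (∀ a b, g' (Sum.inr a) (Sum.inr b) = j (M a b)) →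
      MvPolynomial.aeval (fun q : (κ ⊕ Fin n) × (κ ⊕ Fin n) => g' q.1 q.2) f' = j (evm M f) := by
    intro A M g' hg'
    show MvPolynomial.aeval (fun q : (κ ⊕ Fin n) × (κ ⊕ Fin n) => g' q.1 q.2)
      (MvPolynomial.rename _ (MvPolynomial.map j f)) = _
    rw [MvPolynomial.aeval_rename, MvPolynomial.aeval_def, MvPolynomial.eval₂_map]
    unfold evm
    have h1 : j (MvPolynomial.eval (fun q : Fin n × Fin n => M q.1 q.2) f) =
        MvPolynomial.eval₂ j (fun q : Fin n × Fin n => j (M q.1 q.2)) f := by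
      rw [MvPolynomial.eval, MvPolynomial.coe_eval₂Hom, MvPolynomial.eval₂_comp_left j]
      rfl
    rw [h1]
    have h2 : (algebraMap (AlgebraicClosure ℚ_[ℓ]) (AlgebraicClosure ℚ_[ℓ])).comp j = j := by
      ext x
      rfl
    rw [h2]
    congr 1
    funext q
    exact hg' q.1 q.2
  have hSO : InSO c T.Q ((gl c t).map j) := by
    have hQ : T.Q.map (algebraMap ℚ (AlgebraicClosure ℚ_[ℓ])) =
        (T.Q.map (algebraMap ℚ ℚ_[ℓ])).map j := by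
      rw [Matrix.map_map]
      congr 1
      have h1 : algebraMap ℚ (AlgebraicClosure ℚ_[ℓ]) = j.comp (algebraMap ℚ ℚ_[ℓ]) :=
        Subsingleton.elim _ _
      rw [h1]
      rfl
    have hbQ : BD c (T.Q.map (algebraMap ℚ ℚ_[ℓ])) := bd_map hB.bQ (map_zero _)
    refine ⟨?_, bd_map (bd_gl t) (map_zero j), fun i => ?_⟩
    · rw [hQ, ← Matrix.transpose_map, ← Matrix.map_mul, ← Matrix.map_mul]
      congr 1
      refine bd_ext (bd_mul (bd_mul (bd_trans (bd_gl t)) hbQ) (bd_gl t)) hbQ fun i => ?_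
      rw [pk_mul (bd_mul (bd_trans (bd_gl t)) hbQ), pk_mul (bd_trans (bd_gl t)), pk_trans, pk_gl]
      exact ht i
    · rw [det_bl, pk_map, pk_gl]
      have h1 := congrArg j (htd i)
      rw [map_one, RingHom.map_det] at h1
      exact h1
  have hgd : g.det ≠ 0 := by
    show (fromBlocks 1 0 0 ((gl c t).map j)).det ≠ 0
    rw [fb_det, det_one, one_mul]
    intro h0
    have h1 := hSO.1
    have h2 := congrArg Matrix.det h1
    rw [det_mul, h0, mul_zero] at h2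
    have h3 : (T.Q.map (algebraMap ℚ (AlgebraicClosure ℚ_[ℓ]))).det =
        algebraMap ℚ (AlgebraicClosure ℚ_[ℓ]) T.Q.det := by
      rw [RingHom.map_det, RingHom.mapMatrix_apply]
    rw [h3] at h2
    exact W74.PG.det_ne T ((map_eq_zero _).1 h2.symm)
  have hMT : InMT (hM (fun _ => (1 : Matrix κ κ ℂ)) T) g := by
    rw [InMT_iff (c := c) hB (fun _ _ => by rw [Matrix.det_one]; exact one_ne_zero) star_N e hgd]
    have h11 : g.toBlocks₁₁ = 1 := Matrix.toBlocks_fromBlocks₁₁ _ _ _ _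
    have h22 : g.toBlocks₂₂ = (gl c t).map j := Matrix.toBlocks_fromBlocks₂₂ _ _ _ _
    refine ⟨by rw [h11, h22], ?_, by rw [h22]; exact hSO⟩
    rw [h11]
    intro f₁ hf₁
    have h1 : (1 : Matrix κ κ ℂ) ∈ MTgroup (fun _ => (1 : Matrix κ κ ℂ)) := fun G hG _ => hG.2.1
    have h2 := hf₁ 1 h1
    have h3 : vQ (1 : Matrix κ κ ℂ) f₁ = e (vQ (1 : Matrix κ κ (AlgebraicClosure ℚ_[ℓ])) f₁) := by
      unfold vQ
      rw [MvPolynomial.aeval_def, MvPolynomial.aeval_def, MvPolynomial.eval₂_comp_left e]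
      have h4 : e.comp (algebraMap ℚ (AlgebraicClosure ℚ_[ℓ])) = algebraMap ℚ ℂ :=
        Subsingleton.elim _ _
      rw [h4]
      congr 1
      funext q
      by_cases hq : q.1 = q.2
      · simp [Matrix.one_apply, hq]
      · simp [Matrix.one_apply, hq]
    rw [h3] at h2
    exact (map_eq_zero e).1 h2
  have h0 := (h g hgd).2 hMT f' ⟨Δ, hΔ, fun x hx => by
    rw [← hj]
    refine (hev ((v (s x)).map j) (qm (β (s x)))
      (Matrix.of fun a b => j ((tot v β).comp s x a b)) (fun a b => rfl)).trans ?_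
    have h5 : evm (qm (β (s x))) f = 0 := hf x hx
    rw [h5, map_zero]⟩
  rw [hev 1 (gl c t) g (fun a b => rfl)] at h0
  exact (map_eq_zero j).1 h0

/-- from the full joint Lie algebra to the Mumford-Tate conjecture -/
theorem mtc_of_joint {ℓ : ℕ} [Fact ℓ.Prime] {β : Γ →* Matrix (Fin n) (Fin n) ℤ_[ℓ]}
    {v : Γ →* Matrix κ κ ℚ_[ℓ]} (hB : T.Big c p q) (hv : Continuous v) (hvf : (Set.range v).Finite)
    (hβ : Continuous β) (hbd : ∀ σ, BD c (β σ))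
    (hform : ∀ σ, (qm (β σ))ᵀ * T.Q.map (algebraMap ℚ ℚ_[ℓ]) * qm (β σ) =
      T.Q.map (algebraMap ℚ ℚ_[ℓ]))
    (hfull : ∀ X, (∀ i, SpLie (Jb c T ℓ i) (X i)) → JTan ℓ (rp c (qrep β) (qbd hbd)) X) :
    MTC (hM (fun _ => (1 : Matrix κ κ ℂ)) T) (tot v β) := by
  have hg : GalT c T.Q β := ⟨hform, hbd⟩
  have hcont : Continuous (tot v β) := by
    show Continuous fun s => (fromBlocks (v s) 0 0 (qm (β s)) :
      Matrix (κ ⊕ Fin n) (κ ⊕ Fin n) ℚ_[ℓ])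
    exact hv.matrix_fromBlocks continuous_const continuous_const (continuous_qm.comp hβ)
  have hbQ : BD c (T.Q.map (algebraMap ℚ ℚ_[ℓ])) := bd_map hB.bQ (map_zero _)
  have htan : TanIn c T v β :=
    tanIn_of_finite (continuous_qm.comp hβ) hv hvf fun X hX hXb => by
      have h1 := hfull (fun i => pk c i X) (fun i => by
        unfold SpLie Jb
        rw [← pk_trans, ← pk_mul (bd_trans hXb), ← pk_mul hbQ, ← pk_add, hX, pk_zero])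
      have h2 := tan_of_joint (qbd hbd) h1
      rw [gl_pk hXb] at h2
      exact h2
  have hso : SoIn c T v β := soIn_of_tan hB.bQ hcont htan
  exact (main' hB (fun _ _ => by rw [Matrix.det_one]; exact one_ne_zero) star_N hg hso).2
    (MTC_N hvf)

variable {K : Type} [Field K] [NumberField K] {S : Set (HeightOneSpectrum (𝓞 K))}
  {P : Fin r → HeightOneSpectrum (𝓞 K) → Polynomial ℚ} {s : GK K →* Γ}

/-- **the Mumford-Tate conjecture for several pieces, from one prime** -/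
theorem mt_several {kd : Fin r → Kind} (hB : T.Big c p q) (hS : S.Finite) (hs : Continuous s)
    (hfit : ∀ (i : Fin r) (ℓ : ℕ) [Fact ℓ.Prime], Fits (kd i) (Jb c T ℓ i))
    (h5 : ∀ i, 5 ≤ nb c i)
    (α : ∀ (ℓ : ℕ) [Fact ℓ.Prime], Γ →* Matrix κ κ ℚ_[ℓ])
    (hα : ∀ (ℓ : ℕ) [Fact ℓ.Prime], Continuous (α ℓ) ∧ (Set.range (α ℓ)).Finite)
    (β : ∀ (ℓ : ℕ) [Fact ℓ.Prime], Γ →* Matrix (Fin n) (Fin n) ℤ_[ℓ])
    (hβ : ∀ (ℓ : ℕ) [Fact ℓ.Prime], Continuous (β ℓ))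
    (hbd : ∀ (ℓ : ℕ) [Fact ℓ.Prime], ∀ σ, BD c (β ℓ σ))
    (hform : ∀ (ℓ : ℕ) [Fact ℓ.Prime], ∀ σ, (qm (β ℓ σ))ᵀ * T.Q.map (algebraMap ℚ ℚ_[ℓ]) *
      qm (β ℓ σ) = T.Q.map (algebraMap ℚ ℚ_[ℓ]))
    (hfrob : ∀ (i : Fin r) (ℓ : ℕ) [Fact ℓ.Prime], ∀ v ∉ S, (ℓ : 𝓞 K) ∉ v.asIdeal → ∀ σ : GK K,
      IsFrobenius v σ → (pk c i (qm (β ℓ (s σ⁻¹)))).charpoly = (P i v).map (algebraMap ℚ ℚ_[ℓ]))
    (ℓ₀ : ℕ) [hℓ₀ : Fact ℓ₀.Prime] (hal : ∀ i, Allows (kd i) (nb c i) ℓ₀ (Jb c T ℓ₀ i))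
    (hone : MTC (hM (fun _ => (1 : Matrix κ κ ℂ)) T) ((tot (α ℓ₀) (β ℓ₀)).comp s)) :
    Y142.ZI.DensityZero {ℓ | ∃ _ : Fact ℓ.Prime,
      ¬ MTC (hM (fun _ => (1 : Matrix κ κ ℂ)) T) (tot (α ℓ) (β ℓ))} ∧
    ∀ (ℓ : ℕ) [Fact ℓ.Prime], (∀ i, SS (rp c (qrep (β ℓ)) (qbd (hbd ℓ)) i)) →
      (∀ i, SC (rp c (qrep (β ℓ)) (qbd (hbd ℓ)) i)) →
      MTC (hM (fun _ => (1 : Matrix κ κ ℂ)) T) (tot (α ℓ) (β ℓ)) := by
  have hcq : ∀ (ℓ : ℕ) [Fact ℓ.Prime], Continuous (qrep (β ℓ)) := fun ℓ _ =>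
    continuous_qm.comp (hβ ℓ)
  have hbQ : ∀ (ℓ : ℕ) [Fact ℓ.Prime], BD c (T.Q.map (algebraMap ℚ ℚ_[ℓ])) := fun ℓ _ =>
    bd_map hB.bQ (map_zero _)
  have hiso : ∀ (ℓ : ℕ) [Fact ℓ.Prime] (i : Fin r) (g : Γ),
      (rp c (qrep (β ℓ)) (qbd (hbd ℓ)) i g)ᵀ * Jb c T ℓ i * rp c (qrep (β ℓ)) (qbd (hbd ℓ)) i g =
        Jb c T ℓ i := by
    intro ℓ _ i g
    have h1 := hform ℓ g
    have h2 := congrArg (pk c i) h1
    have h3 : BD c (qm (β ℓ g)) := qbd (hbd ℓ) g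
    rw [pk_mul (bd_mul (bd_trans h3) (hbQ ℓ)), pk_mul (bd_trans h3), pk_trans] at h2
    exact h2
  have hsys : ∀ (i : Fin r) (ℓ : ℕ) [Fact ℓ.Prime], Sys s (kd i) (nb c i) ℓ
      (rp c (qrep (β ℓ)) (qbd (hbd ℓ)) i) (Jb c T ℓ i) S (P i) (fun _ => 1) := by
    intro i ℓ _
    refine ⟨continuous_rp (hcq ℓ) _ i, hfit i ℓ, Jb_det hB.bQ ℓ i, fun γ => ⟨1, ?_, fun _ => rfl⟩,
      fun v hv hvℓ σ hσ => ⟨hfrob i ℓ v hv hvℓ σ hσ, ?_⟩⟩
    · rw [one_smul]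
      exact hiso ℓ i γ
    · rw [Rat.cast_one, one_smul]
      exact hiso ℓ i _
  have hfull₀ : ∀ X, (∀ i, SpLie (Jb c T ℓ₀ i) (X i)) →
      JTan ℓ₀ (fun i => (rp c (qrep (β ℓ₀)) (qbd (hbd ℓ₀)) i).comp s) X := by
    intro X hX
    exact joint_of_zar (R := (qrep (β ℓ₀)).comp s) ((hcq ℓ₀).comp hs)
      (fun g => qbd (hbd ℓ₀) (s g)) (fun i => Jb_symm ℓ₀ i) (fun i => Jb_det hB.bQ ℓ₀ i) h5
      (fun i g => hiso ℓ₀ i (s g)) (zar_of_mtc hB hone) X hX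
  have hsev := PO.several (K := K) PO.tasks hs hS
    (fun (i : Fin r) (ℓ : ℕ) (_ : Fact ℓ.Prime) => rp c (qrep (β ℓ)) (qbd (hbd ℓ)) i)
    (fun (i : Fin r) (ℓ : ℕ) (_ : Fact ℓ.Prime) => Jb c T ℓ i) hsys ℓ₀ hal hfull₀
  constructor
  · refine Y142.ZI.DensityZero.mono hsev.1 ?_
    rintro ℓ ⟨hp, hno⟩
    refine ⟨hp, fun hall => hno ?_⟩
    refine mtc_of_joint hB (hα ℓ).1 (hα ℓ).2 (hβ ℓ) (hbd ℓ) (hform ℓ) fun X hX => ?_
    obtain ⟨σ, hσ⟩ := hall X hX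
    exact ⟨fun k => s (σ k), hσ⟩
  · intro ℓ _ hss hsc
    exact mtc_of_joint hB (hα ℓ).1 (hα ℓ).2 (hβ ℓ) (hbd ℓ) (hform ℓ) fun X hX =>
      hsev.2 ℓ hss hsc X hX

end

end Pool.Agent.R932.H2
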