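import Pool.Agent.R932.H2.Blk

/-!
# From the Zariski closure to tangent vectors
-/

set_option autoImplicit false
set_option linter.unusedSectionVars false
set_option linter.style.haveILetI false

open Matrix Filter Topology
open Pool.Agent.W544.PG (BD bl)
open Pool.Agent.Y142.ZO Pool.Agent.Y142.ZS
open Pool.Agent.R932.PO (JTan IsForm S_JLIE S_JLIFT)

namespace Pool.Agent.R932.H2

noncomputable section

variable {n r : ℕ} {c : Fin n → Fin r} {ℓ : ℕ} [hℓ : Fact ℓ.Prime] {G : Type} [Group G]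

/-- the representation on a block -/
def rp (c : Fin n → Fin r) (R : G →* Matrix (Fin n) (Fin n) ℚ_[ℓ]) (hbd : ∀ g, BD c (R g))
    (i : Fin r) : G →* Matrix (Fin (nb c i)) (Fin (nb c i)) ℚ_[ℓ] where
  toFun g := pk c i (R g)
  map_one' := by rw [map_one, pk_one]
  map_mul' g h := by rw [map_mul, pk_mul (hbd g)]

theorem rp_apply (R : G →* Matrix (Fin n) (Fin n) ℚ_[ℓ]) (hbd : ∀ g, BD c (R g)) (i : Fin r)
    (g : G) : rp c R hbd i g = pk c i (R g) := rfl

theorem continuous_pk (i : Fin r) :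
    Continuous (pk c i : Matrix (Fin n) (Fin n) ℚ_[ℓ] → _) := by
  unfold pk
  exact Continuous.matrix_submatrix continuous_id _ _

theorem continuous_rp [TopologicalSpace G] {R : G →* Matrix (Fin n) (Fin n) ℚ_[ℓ]}
    (hR : Continuous R) (hbd : ∀ g, BD c (R g)) (i : Fin r) : Continuous (rp c R hbd i) :=
  (continuous_pk i).comp hR

/-- joint tangent vectors of the blocks give tangent vectors -/
theorem tan_of_joint {R : G →* Matrix (Fin n) (Fin n) ℚ_[ℓ]} (hbd : ∀ g, BD c (R g))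
    {X : ∀ i, Matrix (Fin (nb c i)) (Fin (nb c i)) ℚ_[ℓ]} (hX : JTan ℓ (rp c R hbd) X) :
    IsTangent ℓ R (gl c X) := by
  obtain ⟨σ, hσ⟩ := hX
  refine ⟨σ, ?_⟩
  refine tendsto_pi_nhds.2 fun a => tendsto_pi_nhds.2 fun b => ?_
  by_cases hab : c a = c b
  · have h1 := tendsto_pi_nhds.1 (tendsto_pi_nhds.1 (hσ (c a)) (eb c (c a) ⟨a, rfl⟩))
      (eb c (c a) ⟨b, hab.symm⟩)
    have h2 : gl c X a b = X (c a) (eb c (c a) ⟨a, rfl⟩) (eb c (c a) ⟨b, hab.symm⟩) := by
      unfold gl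
      rw [Matrix.of_apply, dif_pos hab.symm]
    rw [h2]
    refine h1.congr fun k => ?_
    rw [rp_apply]
    simp only [Matrix.smul_apply, Matrix.sub_apply]
    unfold pk
    rw [Matrix.submatrix_apply, ix_eb, ix_eb, Matrix.one_apply, Matrix.one_apply]
    congr 2
    by_cases hx : a = b
    · subst hx
      simp
    · rw [if_neg hx, if_neg]
      intro h
      exact hx (congrArg Subtype.val ((eb c (c a)).injective h))
  · have h2 : gl c X a b = 0 := bd_gl X a b hab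
    rw [h2]
    refine tendsto_const_nhds.congr fun k => ?_
    have h3 : a ≠ b := fun h => hab (by rw [h])
    simp [Matrix.smul_apply, Matrix.sub_apply, hbd (σ k) a b hab, Matrix.one_apply_ne h3]

/-- a polynomial in the entries -/
abbrev Pol (ℓ : ℕ) [Fact ℓ.Prime] (n : ℕ) : Type := MvPolynomial (Fin n × Fin n) ℚ_[ℓ]

/-- evaluation at a matrix -/
def evm (M : Matrix (Fin n) (Fin n) ℚ_[ℓ]) : Pol ℓ n →+* ℚ_[ℓ] :=
  MvPolynomial.eval fun q : Fin n × Fin n => M q.1 q.2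

/-- the generic matrix -/
def gen (ℓ : ℕ) [Fact ℓ.Prime] (n : ℕ) : Matrix (Fin n) (Fin n) (Pol ℓ n) :=
  Matrix.of fun a b => MvPolynomial.X (a, b)

theorem gen_map (M : Matrix (Fin n) (Fin n) ℚ_[ℓ]) : (gen ℓ n).map (evm M) = M := by
  ext a b
  simp [gen, evm]

theorem cst_map {I J : Type} (M : Matrix (Fin n) (Fin n) ℚ_[ℓ]) (A : Matrix I J ℚ_[ℓ]) :
    (A.map (MvPolynomial.C (R := ℚ_[ℓ]) (σ := Fin n × Fin n))).map (evm M) = A := by
  ext a b
  simp [evm]

/-- the Zariski closure of the image of all subgroups of finite index contains the blocks of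
isometries of determinant one -/
def ZarFull (c : Fin n → Fin r) (R : G →* Matrix (Fin n) (Fin n) ℚ_[ℓ])
    (J : ∀ i, Matrix (Fin (nb c i)) (Fin (nb c i)) ℚ_[ℓ]) : Prop :=
  ∀ f : Pol ℓ n, (∃ Δ : Subgroup G, Δ.FiniteIndex ∧ ∀ g ∈ Δ, evm (R g) f = 0) →
    ∀ t : ∀ i, Matrix (Fin (nb c i)) (Fin (nb c i)) ℚ_[ℓ], (∀ i, (t i)ᵀ * J i * t i = J i) →
      (∀ i, (t i).det = 1) → evm (gl c t) f = 0

/-- conjugation by isometries of determinant one -/
theorem conj_stable {R : G →* Matrix (Fin n) (Fin n) ℚ_[ℓ]} (hbd : ∀ g, BD c (R g))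
    {J : ∀ i, Matrix (Fin (nb c i)) (Fin (nb c i)) ℚ_[ℓ]} (hJd : ∀ i, (J i).det ≠ 0)
    (hiso : ∀ i g, (rp c R hbd i g)ᵀ * J i * rp c R hbd i g = J i)
    (hZ : ZarFull c R J)
    (𝔤 : Submodule ℚ_[ℓ] (∀ i, Matrix (Fin (nb c i)) (Fin (nb c i)) ℚ_[ℓ]))
    (hconj : ∀ g : G, ∀ X ∈ 𝔤, (fun i => rp c R hbd i g * X i * rp c R hbd i g⁻¹) ∈ 𝔤)
    {X : ∀ i, Matrix (Fin (nb c i)) (Fin (nb c i)) ℚ_[ℓ]} (hX : X ∈ 𝔤)
    {t : ∀ i, Matrix (Fin (nb c i)) (Fin (nb c i)) ℚ_[ℓ]} (ht : ∀ i, (t i)ᵀ * J i * t i = J i)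
    (htd : ∀ i, (t i).det = 1) :
    (fun i => t i * X i * ((J i)⁻¹ * (t i)ᵀ * J i)) ∈ 𝔤 := by
  classical
  by_contra hno
  obtain ⟨φ, hφ0, hφ⟩ := Submodule.exists_le_ker_of_notMem hno
  have hexp : ∀ Y : ∀ i, Matrix (Fin (nb c i)) (Fin (nb c i)) ℚ_[ℓ],
      φ Y = ∑ i, ∑ a, ∑ b, Y i a b * φ (Pi.single i (Matrix.single a b 1)) := by
    intro Y
    have h1 : Y = ∑ i, ∑ a, ∑ b, Y i a b • (Pi.single i (Matrix.single a b 1) :
        ∀ i, Matrix (Fin (nb c i)) (Fin (nb c i)) ℚ_[ℓ]) := by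
      have h2 : Y = ∑ i, Pi.single i (Y i) := (Finset.univ_sum_single Y).symm
      conv_lhs => rw [h2]
      refine Finset.sum_congr rfl fun i _ => ?_
      have h3 : Y i = ∑ a, ∑ b, Y i a b • Matrix.single a b (1 : ℚ_[ℓ]) := by
        conv_lhs => rw [Matrix.matrix_eq_sum_single (Y i)]
        simp
      have h4 : ∀ Z : Matrix (Fin (nb c i)) (Fin (nb c i)) ℚ_[ℓ],
          (Pi.single i Z : ∀ i, Matrix (Fin (nb c i)) (Fin (nb c i)) ℚ_[ℓ]) =
          LinearMap.single ℚ_[ℓ] (fun i => Matrix (Fin (nb c i)) (Fin (nb c i)) ℚ_[ℓ]) i Z :=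
        fun _ => rfl
      rw [h4]
      conv_lhs => rw [h3]
      simp only [map_sum, map_smul]
      rfl
    conv_lhs => rw [h1]
    simp only [map_sum, map_smul, smul_eq_mul]
  -- the polynomial
  let gi : ∀ i, Matrix (Fin (nb c i)) (Fin (nb c i)) (Pol ℓ n) := fun i => pk c i (gen ℓ n)
  let M : ∀ i, Matrix (Fin (nb c i)) (Fin (nb c i)) (Pol ℓ n) := fun i =>
    gi i * (X i).map MvPolynomial.C *
      (((J i)⁻¹).map MvPolynomial.C * (gi i)ᵀ * (J i).map MvPolynomial.C)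
  let f : Pol ℓ n := ∑ i, ∑ a, ∑ b, M i a b *
    MvPolynomial.C (φ (Pi.single i (Matrix.single a b 1)))
  have hM : ∀ (A : Matrix (Fin n) (Fin n) ℚ_[ℓ]) (i : Fin r), (M i).map (evm A) =
      pk c i A * X i * ((J i)⁻¹ * (pk c i A)ᵀ * J i) := by
    intro A i
    have h1 : (gi i).map (evm A) = pk c i A := by
      show (pk c i (gen ℓ n)).map (evm A) = _
      rw [← pk_map, gen_map]
    show (gi i * (X i).map MvPolynomial.C *
      (((J i)⁻¹).map MvPolynomial.C * (gi i)ᵀ * (J i).map MvPolynomial.C)).map (evm A) = _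
    rw [Matrix.map_mul, Matrix.map_mul, Matrix.map_mul, Matrix.map_mul, h1, cst_map, cst_map,
      cst_map, Matrix.transpose_map, h1]
  have hf : ∀ A : Matrix (Fin n) (Fin n) ℚ_[ℓ], evm A f =
      φ (fun i => pk c i A * X i * ((J i)⁻¹ * (pk c i A)ᵀ * J i)) := by
    intro A
    rw [hexp]
    show evm A (∑ i, ∑ a, ∑ b, M i a b *
      MvPolynomial.C (φ (Pi.single i (Matrix.single a b 1)))) = _
    rw [map_sum]
    refine Finset.sum_congr rfl fun i _ => ?_
    rw [map_sum]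
    refine Finset.sum_congr rfl fun a _ => ?_
    rw [map_sum]
    refine Finset.sum_congr rfl fun b _ => ?_
    rw [map_mul]
    have h1 : evm A (MvPolynomial.C (φ (Pi.single i (Matrix.single a b 1)))) =
        φ (Pi.single i (Matrix.single a b 1)) := by
      unfold evm
      rw [MvPolynomial.eval_C]
    have h2 : evm A (M i a b) = (M i).map (evm A) a b := rfl
    rw [h1, h2, hM]
  have h0 : evm (gl c t) f = 0 := by
    refine hZ f ⟨⊤, inferInstance, fun g _ => ?_⟩ t ht htd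
    rw [hf]
    have h1 := hφ (hconj g X hX)
    rw [LinearMap.mem_ker] at h1
    rw [← h1]
    congr 1
    funext i
    congr 1
    -- the inverse
    have h2 := hiso i g
    have h3 : rp c R hbd i g * rp c R hbd i g⁻¹ = 1 := by rw [← map_mul, mul_inv_cancel, map_one]
    rw [rp_apply] at h2 h3
    calc (J i)⁻¹ * (pk c i (R g))ᵀ * J i
        = (J i)⁻¹ * ((pk c i (R g))ᵀ * J i * pk c i (R g)) * rp c R hbd i g⁻¹ := by
          rw [mul_assoc, mul_assoc, mul_assoc, mul_assoc, h3, mul_one]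
      _ = rp c R hbd i g⁻¹ := by
          rw [h2, Matrix.nonsing_inv_mul _ (isUnit_iff_ne_zero.2 (hJd i)), one_mul]
  rw [hf] at h0
  apply hφ0
  rw [← h0]
  congr 1
  funext i
  rw [pk_gl]

end

end Pool.Agent.R932.H2
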